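import Pool.Agent.H.MP_805877_ag.A

set_option autoImplicit false

namespace Pool.Agent.Results.MP_805877_ag.Yes

open Finset MvPolynomial Pool.Agent.HShift Pool.Agent.Dep Pool.Agent.Nf

variable {n : ℕ} {a b : Finset (Fin (n + 1))}

/-- The exponent vector of a squarefree monomial, in the lexicographic order. -/
noncomputable def lx (w : Finset (Fin (n + 1))) : Lex (Fin (n + 1) →₀ ℕ) := toLex (ee w)

/-- The support of the monomial `w₀`. -/
def w0 (u : Finset (Fin (n + 1))) : Finset (Fin (n + 1)) :=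
  insert (Fin.last n) (univ.filter fun j => ∃ i ∈ u, j.1 + 1 = i.1)

lemma lx_lt : lx a < lx b ↔ ∃ k ∈ b, k ∉ a ∧ ∀ j < k, j ∈ a ↔ j ∈ b := by
  rw [lx, lx, Finsupp.Lex.lt_iff]
  refine exists_congr fun k => ?_
  simp only [ofLex_toLex, ee_apply]
  rw [and_comm, ← and_assoc]
  exact and_congr (by grind) (forall₂_congr fun _ _ => by grind)

lemma lx_ins {g : Fin (n + 1)} (h : g ∉ a) (h' : g ∉ b) :
    lx (insert g a) ≤ lx (insert g b) ↔ lx a ≤ lx b := by
  simp only [lx, ee, sum_insert h, sum_insert h', toLex_add, add_le_add_iff_left]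

lemma lx_le (h : ∀ k ∈ a, k ∉ b → ¬ ∀ j < k, j ∈ b ↔ j ∈ a) : lx a ≤ lx b :=
  not_lt.1 fun h' => let ⟨k, h1, h2, h3⟩ := lx_lt.1 h'; h k h1 h2 h3

def Pr (S : Set (Finset (Fin (n + 1)))) (g : Fin (n + 1)) (q : ℕ) : Prop :=
  ∀ R : Finset _, (∀ x ∈ R, g ≤ x) → #R = q + 1 → ∀ j ∈ R, R.erase j ∈ S →
    ∃ i ∈ R, i ≠ j ∧ R.erase i ∈ S

lemma claim (s : Finset (Fin (n + 1))) : ∀ g S, (∀ x ∈ s, g < x) → Pr S g (#s + 1) →
    insert g s ∈ S → ∃ t ∈ S, (∀ x ∈ t, g ≤ x) ∧ #t = #s + 1 ∧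
      (lx (insert g s) < lx t ∨ lx t ≤ lx (w0 s)) := by
  induction s using Finset.induction_on_min with
  | empty =>
    intro g S _ h h'
    by_cases h1 : g = Fin.last n
    · exact ⟨_, h', by simp, rfl, .inr (by simp [h1, w0])⟩
    · obtain ⟨i, h2, h3, h4⟩ := h {g, Fin.last n} (by simp [Fin.le_last]) (card_pair h1) (Fin.last n)
        (by simp) (by simpa [erase_insert_of_ne h1] using h')
      obtain rfl : i = g := by simpa [h3] using h2
      exact ⟨{Fin.last n}, by simpa [erase_insert, h1] using h4, by simp [Fin.le_last], rfl,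
        .inr (by simp [w0])⟩
  | insert a s ha ih =>
    intro g S h1 h2 h3
    by_contra H
    push Not at H
    have h4 : a ∉ s := fun h => (ha a h).false
    have h5 := h1 a (mem_insert_self _ _)
    rw [card_insert_of_notMem h4] at h2 H
    let b : Fin (n + 1) := ⟨a - 1, by omega⟩
    have hb : g ≤ b ∧ b < a := by simp only [b, Fin.le_def, Fin.lt_def] at *; omega
    have h6 : b ∉ w0 s := by
      simp only [w0, mem_insert, mem_filter, mem_univ, true_and, not_or, not_exists, not_and]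
      refine ⟨(hb.2.trans_le (Fin.le_last _)).ne, fun i hi => ?_⟩
      have := ha i hi
      simp only [b, Fin.lt_def] at *
      omega
    have h7 : w0 (insert a s) = insert b (w0 s) := by
      ext j
      have : j.1 + 1 = a ↔ j = b := by simp only [b, Fin.ext_iff, Fin.lt_def] at *; omega
      simp [w0, this, or_left_comm]
    have e : ∀ y : Finset _, (∀ x ∈ y, a ≤ x) → ∀ j < a, j ∉ y := fun y h j hj h' =>
      (h j h').not_gt hj
    have e' : ∀ y : Finset _, (∀ x ∈ y, a ≤ x) → ∀ x ∈ insert g y, g ≤ x := fun y h => by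
      simpa using fun x hx => h5.le.trans (h x hx)
    obtain ⟨y, h8, h9, h10, h11⟩ := ih a {y | insert g y ∈ S} ha (fun R h8 h9 j h10 h11 => by
      obtain ⟨i, h12, h13, h14⟩ := h2 (insert g R) (e' R h8)
        (by rw [card_insert_of_notMem (e R h8 g h5), h9]) j (mem_insert_of_mem h10)
        (by rwa [erase_insert_of_ne (h5.trans_le (h8 j h10)).ne])
      rcases mem_insert.1 h12 with rfl | h12
      · rw [erase_insert (e R h8 _ h5)] at h14
        refine absurd (H R h14 (fun x hx => h5.le.trans (h8 x hx)) h9).2 (not_lt.2 (lx_le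
          fun k hk _ h => e R h8 b hb.2 ((h b (hb.2.trans_le (h8 k hk))).1 (by simp [h7]))))
      · exact ⟨i, h12, h13, by rwa [erase_insert_of_ne (h5.trans_le (h8 i h12)).ne] at h14⟩) h3
    have h12 := H _ h8 (e' y h9) (by rw [card_insert_of_notMem (e y h9 g h5), h10])
    rw [lx_ins (e y h9 g h5) fun h => (h1 g h).false] at h12
    have h13 := (lx_ins (e y h9 b hb.2) h6).2 (h11.resolve_left h12.1.not_gt)
    rw [← h7] at h13
    rcases hb.1.eq_or_lt with h14 | h14
    · exact h12.2.not_ge (h14 ▸ h13)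
    have h15 : g ∉ insert b y := by simp [h14.ne, e y h9 g h5]
    have h16 : ∀ x ∈ insert g (insert b y), g ≤ x := by
      simpa [hb.1] using fun x hx => h5.le.trans (h9 x hx)
    have h17 : #(insert g (insert b y)) = #s + 1 + 1 + 1 := by
      rw [card_insert_of_notMem h15, card_insert_of_notMem (e y h9 b hb.2), h10]
    obtain ⟨i, h18, h19, h20⟩ := h2 _ h16 h17 b (by simp)
      (by rwa [erase_insert_of_ne h14.ne, erase_insert (e y h9 b hb.2)])
    have h21 := H _ h20 (fun x hx => h16 x (mem_of_mem_erase hx))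
      (by rw [card_erase_of_mem h18, h17]; rfl)
    by_cases h22 : i = g
    · rw [h22, erase_insert h15] at h21
      exact h21.2.not_ge h13
    · have h23 := h9 i (by simpa [h22, h19] using h18)
      refine h21.1.not_gt (lx_lt.2 ⟨b, by simp [h19.symm], by
        simp [h14.ne', hb.2.ne, e s (fun x h => (ha x h).le) b hb.2], fun j hj => ?_⟩)
      have := hj.trans hb.2
      simp [hj.ne, this.ne, e s (fun x h => (ha x h).le) j this, e y h9 j this,
        (this.trans_le h23).ne]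

lemma mat {β : Type} (p : Fin (n + 1) → β) :
    Mat fun F : Finset (Fin (n + 1)) => ∀ i, ∃ j, p j = p i ∧ j ∉ F := by
  refine ⟨fun F G h h' i => (h i).imp fun j hj => ⟨hj.1, fun h => hj.2 (h' h)⟩,
    fun F G h1 h2 h3 => by_contra fun h => ?_⟩
  push Not at h
  choose f h4 h5 using h2
  have e : ∀ x ∈ G \ F, ∀ j, p j = p x → j ≠ x → j ∈ F := fun x hx j hj hj' => by
    obtain ⟨i, h6⟩ := h x (mem_sdiff.1 hx).1 (mem_sdiff.1 hx).2
    obtain ⟨y, h7, h8⟩ := h1 i
    obtain rfl := (mem_insert.1 (h6 y h7)).resolve_right h8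
    exact (mem_insert.1 (h6 j (hj.trans h7))).resolve_left hj'
  have := card_le_card_of_injOn (s := G \ F) (t := F \ G) f (fun x hx => mem_sdiff.2
    ⟨e x hx _ (h4 x) fun h => h5 x (h.symm ▸ (mem_sdiff.1 hx).1), h5 x⟩) fun x hx y hy h6 =>
      by_contra fun h7 => (mem_sdiff.1 hx).2 (e y hy x (by rw [← h4 x, h6, h4]) h7)
  have := card_sdiff_add_card_inter G F
  have := card_sdiff_add_card_inter F G
  rw [inter_comm] at this
  omega

lemma cyc (K : Type) [Field K] {u : Finset (Fin (n + 1))} (h0 : 0 ∈ u) :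
    ∃ c : Finset (Fin (n + 1)) → K, (∀ F, c F ≠ 0 → #Fᶜ = #u ∧ lx (w0 u) ≤ lx Fᶜ ∧ lx Fᶜ ≤ lx u) ∧
      bd c = 0 ∧ c ≠ 0 := by
  have : ∀ j, ∃ i ∈ u, i ≤ j ∧ ∀ k ∈ u, k ≤ j → k ≤ i := fun j => by
    simpa [and_assoc] using exists_max_image {i ∈ u | i ≤ j} id ⟨0, by simpa⟩
  choose p h1 h2 h3 using this
  have h4 : ∀ i ∈ u, p i = i := fun i hi => (h2 i).antisymm (h3 i i hi le_rfl)
  have h5 : ∀ v, ∃ F, (∀ i, ∃ j, p j = p i ∧ j ∉ F) ∧ #F = #uᶜ ∧ v ∉ F := fun v => by
    refine ⟨(insert v (u.erase (p v)))ᶜ, fun i => ?_, ?_, by simp⟩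
    · by_cases h : p i = p v
      · exact ⟨v, h.symm, by simp⟩
      · exact ⟨p i, h4 _ (h1 i), by simp [h, h1]⟩
    · rw [card_compl, card_compl, card_insert_of_notMem fun h => (mem_erase.1 h).1
        (h4 v (mem_erase.1 h).2).symm, card_erase_add_one (h1 v)]
  obtain ⟨c, h6, h7⟩ := cycle (K := K) _ _ (mat p) ((h5 0).imp fun _ h => ⟨h.1, h.2.1⟩) h5
  refine ⟨c, fun F hF => ?_, h7⟩
  obtain ⟨h8, h9⟩ := h6 F hF
  have h10 : #Fᶜ = #u := by rw [card_compl, h9, ← card_compl, compl_compl]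
  have h11 : Set.InjOn p (Fᶜ : Finset _) := card_image_iff.1 (card_image_le.antisymm
    (h10 ▸ card_le_card fun i hi => by
      obtain ⟨j, h, h'⟩ := h8 i
      exact mem_image.2 ⟨j, mem_compl.2 h', h.trans (h4 i hi)⟩))
  refine ⟨h10, lx_le fun k hk h12 h13 => ?_, lx_le fun k hk h12 h13 => ?_⟩
  · obtain ⟨j, h14, h15⟩ := h8 k
    rw [← mem_compl] at h15
    have e : ∀ j ∈ w0 u, ∀ k, j < k → j < p k := fun j hj k h => by
      obtain ⟨i, h16, h17⟩ := (mem_filter.1 ((mem_insert.1 hj).resolve_left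
        (h.trans_le (Fin.le_last _)).ne)).2
      have := h3 k i h16
      simp only [Fin.le_def, Fin.lt_def] at *
      omega
    rcases lt_trichotomy j k with h | h | h
    · exact (e j ((h13 j h).1 h15) k h).not_ge (h14 ▸ h2 j)
    · exact h12 (h ▸ h15)
    · exact (e k hk j h).not_ge (h14 ▸ h2 k)
  · have h14 : p k ≠ k := fun h => h12 (h ▸ h1 k)
    exact h14 (h11 ((h13 _ ((h2 k).lt_of_ne h14)).1 (h1 k)) hk (h4 _ (h1 k)))

/-- `rs` is an `S ⧸ I`-regular sequence inside `(x₁, …, x_N)`. -/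
def Reg {K : Type} [Field K] (I : Ideal (MvPolynomial (Fin (n + 1)) K))
    (rs : List (MvPolynomial (Fin (n + 1)) K)) : Prop :=
  (∀ r ∈ rs, r ∈ Ideal.span (Set.range X)) ∧ RingTheory.Sequence.IsRegular (_ ⧸ I) rs

/-- `depth S ⧸ I = d`. -/
def Depth {K : Type} [Field K] (I : Ideal (MvPolynomial (Fin (n + 1)) K)) (d : ℕ) : Prop :=
  IsGreatest {l | ∃ rs, rs.length = l ∧ Reg I rs} d

theorem result (K : Type) [Field K] (n q : ℕ) (hq : 2 ≤ q) (u v : Finset (Fin (n + 1)))
    (hu : #u = q) (_hv : #v = q) (h0 : 0 ∈ u) (_h0 : 0 ∉ v) :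
    Depth (mi K (ee '' {w | #w = q ∧ lx v ≤ lx w ∧ lx w ≤ lx u})) (q - 1) ↔
      lx v ≤ lx (w0 u) := by
  classical
  set L := {w | #w = q ∧ lx v ≤ lx w ∧ lx w ≤ lx u}
  have h1 : 0 ∉ ee '' L := by
    rintro ⟨w, h, e⟩
    obtain ⟨j, hj⟩ := card_pos.1 (show 0 < #w by have := h.1; omega)
    simpa [ee_apply, hj] using DFunLike.congr_fun e j
  have h2 : q ≤ n + 1 := by simpa [hu] using card_le_univ u
  have h3 : ∀ a i, n + 1 ≤ i + q → ¬ Van K (Dl (ee '' L) a) i → ∃ c : Finset (Fin (n + 1)) → K,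
      (∀ F, c F ≠ 0 → Fᶜ ∈ L) ∧ bd c = 0 ∧ c ≠ 0 ∧ i + q = n + 1 := fun a i hi h => by
    have h3 : ∀ j, a j ≤ 1 := fun j => not_lt.1 fun h3 => h (van_cone j
      fun F _ ⟨_, ⟨w, h4, rfl⟩, h5⟩ => ⟨_, ⟨w, h4, rfl⟩, fun l => by
        have := h5 l
        simp only [ee_apply, mem_insert] at *
        grind⟩)
    simp only [Van, not_forall] at h
    obtain ⟨c, h4, h5, h6⟩ := h
    have e : ∀ F, c F ≠ 0 → Fᶜ ∈ L ∧ i + q = n + 1 := fun F hF => by
      obtain ⟨⟨_, ⟨w, h7, rfl⟩, h8⟩, h9⟩ := h4 F hF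
      have h10 : w ⊆ Fᶜ := fun j hj => mem_compl.2 fun h => by
        simpa [ee_apply, hj, h] using (h8 j).trans (h3 j)
      have := card_le_card h10
      have := card_add_card_compl F
      have := h7.1
      rw [Fintype.card_fin] at *
      exact ⟨eq_of_subset_of_card_le h10 (by omega) ▸ h7, by omega⟩
    have h7 : c ≠ 0 := fun h => h6 ⟨0, fun _ h => absurd rfl h, bd_zero.trans h.symm⟩
    exact ⟨c, fun F h => (e F h).1, h5, h7, let ⟨F, h⟩ := Function.ne_iff.1 h7; (e F h).2⟩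
  have h4 : DP (mm K _) (_ ⧸ mi K (ee '' L)) (q - 1) := (depth_iff h1 (by omega)).2
    fun a i hi => by_contra fun h => by
      obtain ⟨_, -, -, -, _⟩ := h3 a i (by omega) h
      omega
  refine ⟨fun h => ?_, fun h => isGreatest_of_dp (mi_le h1) mm_max.ne_top h4 fun h5 => ?_⟩
  · have h5 : ¬ DP (mm K _) (_ ⧸ mi K (ee '' L)) q := fun h5 => by
      obtain ⟨rs, h6, h7⟩ := (exists_reg (mi_le h1) mm_max.ne_top).1 h5
      have := h.2 ⟨rs, rfl, h7⟩
      omega
    rw [depth_iff h1 h2] at h5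
    push Not at h5
    obtain ⟨a, i, h5, h6⟩ := h5
    obtain ⟨c, h7, h8, h9, -⟩ := h3 a i h5 h6
    have h10 : Pr {t | c tᶜ ≠ 0} 0 q := fun R _ _ j hj h => by_contra fun h' => by
      have := congrFun h8 Rᶜ
      rw [bd, compl_compl, sum_eq_single j (fun i hi e => by
        rw [← compl_erase, not_not.1 fun h => h' ⟨i, hi, e, h⟩, mul_zero]) (by simp [hj]),
        ← compl_erase] at this
      exact mul_ne_zero (sg_ne _ _) h this
    obtain ⟨s, h11, h12⟩ := exists_max_image {t | c tᶜ ≠ 0} lx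
      (let ⟨F, h⟩ := Function.ne_iff.1 h9; ⟨Fᶜ, by simpa using h⟩)
    simp only [mem_filter, mem_univ, true_and] at h11 h12
    have h13 := h7 _ h11
    rw [compl_compl] at h13
    have h14 : 0 ∈ s := by_contra fun h => by
      obtain ⟨i, -, h14, h15⟩ := h10 (insert 0 s) (by simp)
        (by rw [card_insert_of_notMem h, h13.1]) 0 (by simp) (by rwa [erase_insert h])
      exact (h12 _ h15).not_gt (lx_lt.2 ⟨0, by simp [h14.symm], h, by simp⟩)
    obtain ⟨t, h15, -, -, h16⟩ := claim (s.erase 0) 0 _ (by simp +contextual [Fin.pos_iff_ne_zero])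
      (by rwa [card_erase_add_one h14, h13.1]) (by rwa [insert_erase h14])
    rw [insert_erase h14] at h16
    have h17 := h7 _ h15
    rw [compl_compl] at h17
    refine h17.2.1.trans ((h16.resolve_left (h12 t h15).not_gt).trans (lx_le fun k hk h18 h19 =>
      h13.2.2.not_gt ?_))
    simp only [w0, mem_insert, mem_filter, mem_univ, true_and, not_or, mem_erase] at hk h18 h19
    obtain ⟨i, h20, h21⟩ := hk.resolve_left h18.1
    refine lx_lt.2 ⟨i, h20.2, fun h => h18.2 ⟨i, h, h21⟩, fun j hj => ?_⟩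
    cases j using Fin.cases with
    | zero => simp [h0, h14]
    | succ j =>
      have := h19 j.castSucc (by simp only [Fin.lt_def, Fin.val_succ, Fin.val_castSucc] at *; omega)
      simpa [Fin.castSucc_ne_last, ← Fin.val_succ, Fin.val_inj] using this
  · obtain ⟨c, h6, h7, h8⟩ := cyc K h0
    have e : ∀ F, c F ≠ 0 → #F = n + 1 - q := fun F hF => by
      have := card_add_card_compl F
      rw [(h6 F hF).1, Fintype.card_fin] at this
      omega
    obtain ⟨w, h9, rfl⟩ := (depth_iff h1 (by omega)).1 h5 (ee univ) (n + 1 - q) (by omega) c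
      (fun F hF => ⟨⟨_, ⟨Fᶜ, ⟨(h6 F hF).1.trans hu, h.trans (h6 F hF).2.1, (h6 F hF).2.2⟩, rfl⟩,
        fun j => by by_cases h : j ∈ F <;> simp [ee_apply, h]⟩, e F hF⟩) h7
    refine h8 ((congrArg bd (funext fun F => by_contra fun hF => ?_)).trans bd_zero)
    obtain ⟨⟨_, ⟨t, h10, rfl⟩, h11⟩, h12⟩ := h9 F hF
    have := card_le_card (show t ⊆ Fᶜ from fun j hj => mem_compl.2 fun h => by
      simpa [ee_apply, hj, h] using h11 j)
    have := card_add_card_compl F
    have := h10.1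
    rw [Fintype.card_fin] at *
    omega

end Pool.Agent.Results.MP_805877_ag.Yes
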